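import Pool.Agent.KOX.Defs
import Pool.Agent.KOR.C4
import Pool.Agent.FOX.Defs

/-!
# Points of the three kinds: the compact definitions and those of the proof
-/

namespace KOX

open KOR

noncomputable section

variable {d k : ℕ}

theorem ptF_to {p : List (Fin d) → E d} (c : E d) (h : FOX.PtF k p) :
    KOX.KindF k fun w => c + p w := by
  obtain ⟨y, g, A, M, hA, hq, hmod, hne, hcl, hw⟩ := h
  have hcl1 : classes (RF (new M)) = k := by
    have := classesF (new M)
    rw [new_old, hcl] at this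
    exact this
  have hcl2 : classes (RF (new M).red.pre) = k := by rw [RF_red]; exact hcl1
  obtain ⟨hred, hqr⟩ := red_facts M (b := Nat.log 2 k + 1 + 20) fun j hj => hq j (by omega)
  have hfin : Finite (Quotient (new M).st) := inferInstance
  refine ⟨c, y, g, _, (new M).red, hfin, fun j hj x => hqr j (by omega) x, hmod, ?_, hcl2,
    fun w => ?_⟩
  · rw [red_all (new M)]
    exact fun x => hne x
  · rw [hred]
    exact congrArg (fun z => c + z) (hw w)

theorem ptF_of {p : List (Fin d) → E d} (h : KOX.KindF k p) :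
    ∃ (c : E d) (p0 : List (Fin d) → E d), FOX.PtF k p0 ∧ ∀ w, p w = c + p0 w := by
  obtain ⟨c, y, g, A, M, hA, hq, hmod, hne, hcl, hw⟩ := h
  refine ⟨c, fun w => M.r (act M.q w M.a) • act (fun j => g j) w y, ⟨y, g, A, M.pre.old, hA,
    fun j hj => Equiv.ext fun x => hq j hj x, hmod, hne, ?_, fun w => rfl⟩, hw⟩
  rw [← classesF M.pre]
  exact hcl

theorem ptI_to {p : List (Fin d) → E d} (c : E d) (h : FOX.PtI k p) :
    KOX.KindI k fun w => c + p w := by
  obtain ⟨y, l, u0, ε, g, A, M, hA, hq, hε, hmod, hl, hcl, hw⟩ := h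
  have hcl1 : classes (RI (new M) (Lib_helper64.FO.sg u0)) = k := by
    have := classesI (new M) u0
    rw [new_old, hcl] at this
    exact this
  have hcl2 : classes (RI (new M).red.pre (Lib_helper64.FO.sg u0)) = k := by
    rw [RI_red]; exact hcl1
  obtain ⟨hred, hqr⟩ := red_facts M (b := Nat.log 2 k + 2 + 20) fun j hj => hq j (by omega)
  have hfin : Finite (Quotient (new M).st) := inferInstance
  refine ⟨c, y, l, Lib_helper64.FO.sg u0, ε, g, _, (new M).red, hfin,
    fun j hj x => hqr j (by omega) x, unit_or u0, hε, hmod, hl, hcl2, fun w => ?_⟩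
  rw [hred, betaI_eq, add_assoc]
  exact congrArg (fun z => c + z) (hw w)

theorem ptI_of {p : List (Fin d) → E d} (h : KOX.KindI k p) :
    ∃ (c : E d) (p0 : List (Fin d) → E d), FOX.PtI k p0 ∧ ∀ w, p w = c + p0 w := by
  obtain ⟨c, y, l, s, ε, g, A, M, hA, hq, hs, hε, hmod, hl, hcl, hw⟩ := h
  obtain ⟨s0, rfl⟩ := exists_unit hs
  refine ⟨c, fun w => act (betaI (Lib_helper64.FO.sg s0) g (l • y)) w 0 +
    M.r (act M.q w M.a) • act (fun j => g j) w y, ⟨y, l, s0, ε, g, A, M.pre.old, hA,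
    fun j hj => Equiv.ext fun x => hq j hj x, hε, hmod, hl, ?_, fun w => ?_⟩, fun w => ?_⟩
  · rw [← classesI M.pre]
    exact hcl
  · rw [betaI_eq]
    rfl
  · rw [hw w, add_assoc]

theorem ptR_to {p : List (Fin d) → E d} (c : E d) (h : FOX.PtR k p) :
    KOX.KindR k fun w => c + p w := by
  obtain ⟨e, y, l, b, u1, g, A, M, hq, he, hmod, hb, hl, hcl, hw⟩ := h
  have hcl1 : classes (RR (new M)) = k := by
    have := classesR (new M)
    rw [new_old, hcl] at this
    exact this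
  have hcl2 : classes (RR (new M).red.pre) = k := by rw [RR_red]; exact hcl1
  obtain ⟨hred, hqr⟩ := red_facts M (b := Nat.log 2 k + 3 + 20) fun j hj => hq j (by omega)
  refine ⟨c, e, y, l, Lib_helper64.FO.sg u1, b, g, _, (new M).red,
    fun j hj x => hqr j (by omega) x, unit_or u1, he, hmod, hb, hl, hcl2, fun w => ?_⟩
  rw [hred, betaR_eq, add_assoc]
  exact congrArg (fun z => c + z) (hw w)

theorem ptR_of {p : List (Fin d) → E d} (h : KOX.KindR k p) :
    ∃ (c : E d) (p0 : List (Fin d) → E d), FOX.PtR k p0 ∧ ∀ w, p w = c + p0 w := by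
  obtain ⟨c, e, y, l, s, b, g, A, M, hq, hs, he, hmod, hb, hl, hcl, hw⟩ := h
  obtain ⟨s1, rfl⟩ := exists_unit hs
  refine ⟨c, fun w => act (betaR b (Lib_helper64.FO.sg s1) g y (l • y)) w 0 +
    M.r (act M.q w M.a) • e, ⟨e, y, l, b, s1, g, A, M.pre.old,
    fun j hj => Equiv.ext fun x => hq j hj x, he, hmod, hb, hl, ?_, fun w => ?_⟩, fun w => ?_⟩
  · rw [← classesR M.pre]
    exact hcl
  · rw [betaR_eq]
    rfl
  · rw [hw w, add_assoc]

theorem pt_to {p : List (Fin d) → E d} (c : E d)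
    (h : FOX.PtF k p ∨ FOX.PtI k p ∨ FOX.PtR k p) :
    KOX.KindF k (fun w => c + p w) ∨ KOX.KindI k (fun w => c + p w) ∨
      KOX.KindR k (fun w => c + p w) := by
  rcases h with h | h | h
  · exact Or.inl (ptF_to c h)
  · exact Or.inr (Or.inl (ptI_to c h))
  · exact Or.inr (Or.inr (ptR_to c h))

theorem pt_of {p : List (Fin d) → E d}
    (h : KOX.KindF k p ∨ KOX.KindI k p ∨ KOX.KindR k p) :
    ∃ (c : E d) (p0 : List (Fin d) → E d),
      (FOX.PtF k p0 ∨ FOX.PtI k p0 ∨ FOX.PtR k p0) ∧ ∀ w, p w = c + p0 w := by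
  rcases h with h | h | h
  · obtain ⟨c, p0, h1, h2⟩ := ptF_of h
    exact ⟨c, p0, Or.inl h1, h2⟩
  · obtain ⟨c, p0, h1, h2⟩ := ptI_of h
    exact ⟨c, p0, Or.inr (Or.inl h1), h2⟩
  · obtain ⟨c, p0, h1, h2⟩ := ptR_of h
    exact ⟨c, p0, Or.inr (Or.inr h1), h2⟩

end

end KOX
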