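import Pool.Agent.KOX.B1

/-!
# Words and permutations
-/

namespace KOX

open KOR FO2

noncomputable section

variable {d : ℕ}

theorem same_tr (c : E d) {p0 p : List (Fin d) → E d} (h : ∀ w, p w = c + p0 w)
    (v w : List (Fin d)) : Same p v w ↔ Same p0 v w := by
  refine forall_congr' fun u => ?_
  rw [h, h, add_right_inj]

/-! ### the groups -/

section groups

variable {X : Type} {S : SGen d X}

theorem prod_append (v w : List (Fin d)) :
    ((v ++ w).map S.σ).prod = (v.map S.σ).prod * (w.map S.σ).prod := by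
  rw [List.map_append, List.prod_append]

theorem prod_single (j : Fin d) : (([j] : List (Fin d)).map S.σ).prod = S.σ j := by
  rw [List.map_singleton, List.prod_singleton]

theorem word_mem (I : Set (Fin d)) : ∀ w : List (Fin d), (∀ x ∈ w, x ∈ I) →
    (w.map S.σ).prod ∈ S.par I := by
  intro w
  induction w with
  | nil =>
    intro _
    exact one_mem _
  | cons j w ih =>
    intro h
    rw [List.map_cons, List.prod_cons]
    exact mul_mem (Subgroup.subset_closure ⟨j, h j List.mem_cons_self, rfl⟩)
      (ih fun x hx => h x (List.mem_cons_of_mem _ hx))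

theorem inv_word (w : List (Fin d)) : ((w.map S.σ).prod)⁻¹ = (w.reverse.map S.σ).prod := by
  induction w with
  | nil => simp
  | cons j w ih =>
    have h1 : (S.σ j)⁻¹ = S.σ j := inv_eq_of_mul_eq_one_left (S.sq j)
    rw [List.map_cons, List.prod_cons, mul_inv_rev, h1, List.reverse_cons, prod_append, ih,
      prod_single]

theorem exists_word (I : Set (Fin d)) {γ : Equiv.Perm X} (h : γ ∈ S.par I) :
    ∃ w : List (Fin d), (∀ x ∈ w, x ∈ I) ∧ (w.map S.σ).prod = γ := by
  refine Subgroup.closure_induction (p := fun γ _ => ∃ w : List (Fin d), (∀ x ∈ w, x ∈ I) ∧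
    (w.map S.σ).prod = γ) ?_ ?_ ?_ ?_ h
  · rintro _ ⟨j, hj, rfl⟩
    refine ⟨[j], fun x hx => ?_, prod_single j⟩
    rw [List.mem_singleton] at hx
    rw [hx]
    exact hj
  · exact ⟨[], fun x hx => absurd hx (List.not_mem_nil), rfl⟩
  · rintro _ _ _ _ ⟨v, hv, rfl⟩ ⟨w, hw, rfl⟩
    refine ⟨v ++ w, fun x hx => ?_, prod_append v w⟩
    rcases List.mem_append.1 hx with h | h
    · exact hv x h
    · exact hw x h
  · rintro _ _ ⟨w, hw, rfl⟩
    exact ⟨w.reverse, fun x hx => hw x (List.mem_reverse.1 hx), (inv_word w).symm⟩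

end groups

/-! ### the points -/

section points

variable {S : SGen d (E d)} {p : List (Fin d) → E d}

theorem prod_apply (h : ∀ (j : Fin d) (w : List (Fin d)), S.σ j (p w) = p (j :: w))
    (v w : List (Fin d)) : (v.map S.σ).prod (p w) = p (v ++ w) := by
  induction v with
  | nil => rfl
  | cons j v ih =>
    rw [List.map_cons, List.prod_cons, Equiv.Perm.mul_apply, ih, h]
    rfl

theorem prod_out (h : ∀ (j : Fin d) (x : E d), x ∉ Set.range p → S.σ j x = x)
    (v : List (Fin d)) {x : E d} (hx : x ∉ Set.range p) : (v.map S.σ).prod x = x := by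
  induction v with
  | nil => rfl
  | cons j v ih => rw [List.map_cons, List.prod_cons, Equiv.Perm.mul_apply, ih, h j x hx]

theorem same_iff (h : ∀ (j : Fin d) (w : List (Fin d)), S.σ j (p w) = p (j :: w))
    (h' : ∀ (j : Fin d) (x : E d), x ∉ Set.range p → S.σ j x = x) (v w : List (Fin d)) :
    Same p v w ↔ (v.map S.σ).prod = (w.map S.σ).prod := by
  constructor
  · intro hs
    refine Equiv.ext fun x => ?_
    by_cases hx : x ∈ Set.range p
    · obtain ⟨u, rfl⟩ := hx
      rw [prod_apply h, prod_apply h]
      exact hs u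
    · rw [prod_out h' v hx, prod_out h' w hx]
  · intro e u
    rw [← prod_apply h, e, prod_apply h]

theorem stringC_of (hA : FOX.Adm S p) : StringC p := by
  have hs := same_iff hA.act hA.out
  refine ⟨fun j v w e => ?_, fun j => ?_, fun j => ?_, fun i j hij => ?_,
    fun I J v w hv hw e => ?_⟩
  · rw [← hA.act, e, hA.act]
  · rw [hs, List.map_cons, List.prod_cons, prod_single, S.sq]
    rfl
  · rw [hs, prod_single]
    exact hA.ne_one j
  · rw [hs, List.map_cons, List.prod_cons, prod_single, List.map_cons, List.prod_cons,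
      prod_single, S.comm i j hij]
  · have h1 := word_mem (S := S) I v hv
    have h2 := word_mem (S := S) J w hw
    rw [← (hs v w).1 e] at h2
    have h3 : (v.map S.σ).prod ∈ S.par I ⊓ S.par J := ⟨h1, h2⟩
    rw [hA.inter] at h3
    obtain ⟨u, hu1, hu2⟩ := exists_word _ h3
    exact ⟨u, hu1, (hs u v).2 hu2⟩

theorem prd_eq {i m : Fin d} (h : m.val = i.val + 1) : FO2.prd m = i := by
  apply Fin.ext
  show m.val - 1 = i.val
  omega

theorem stab_of (hA : FOX.Adm S p) : Stab p := by
  have hs := same_iff hA.act hA.out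
  refine ⟨fun w e => ?_, fun i v w hvw e => ?_⟩
  · have h1 : (w.map S.σ).prod (p []) = p [] := by
      rw [prod_apply hA.act, List.append_nil, e]
    obtain ⟨u, hu1, hu2⟩ := exists_word _ (hA.stab _ (word_mem Set.univ w fun _ _ => trivial) h1)
    refine ⟨u, fun x hx => ?_, (hs u w).2 hu2⟩
    have := hu1 x hx
    have h2 : x.val ≠ 0 := this
    omega
  · by_cases hi : i.val + 1 < d
    · have hv : ∀ x ∈ v, x ∈ {j : Fin d | (⟨i.val + 1, hi⟩ : Fin d) ≤ j} := by
        intro x hx
        have := hvw x (List.mem_append_left _ hx)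
        show i.val + 1 ≤ x.val
        omega
      have hw : ∀ x ∈ w, x ∈ {j : Fin d | (⟨i.val + 1, hi⟩ : Fin d) ≤ j} := by
        intro x hx
        have := hvw x (List.mem_append_right _ hx)
        show i.val + 1 ≤ x.val
        omega
      have h1 := (hs _ _).1 e
      rw [prod_append, prod_single, List.map_cons, List.prod_cons] at h1
      have h2 := hA.edge ⟨i.val + 1, hi⟩ (by simp) (v.map S.σ).prod (word_mem _ v hv) (by
        rw [prd_eq (i := i) rfl, h1]
        exact word_mem _ w hw)
      obtain ⟨u, hu1, hu2⟩ := exists_word _ h2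
      exact ⟨u, fun x hx => hu1 x hx, (hs u v).2 hu2⟩
    · have h0 : v = [] := by
        rw [List.eq_nil_iff_forall_not_mem]
        intro x hx
        have := hvw x (List.mem_append_left _ hx)
        omega
      exact ⟨[], fun x hx => absurd hx List.not_mem_nil, by rw [h0]; exact fun u => rfl⟩

end points

end

end KOX
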