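import Pool.Agent.KOX.B2

/-!
# Cosets
-/

namespace KOX

open KOR FO2

noncomputable section

variable {d : ℕ}

/-! ### faces -/

section faces

variable {S : SGen d (E d)}

/-- the coset of `σ_w` by `Γ_i` -/
def face (S : SGen d (E d)) (i : Fin d) (w : List (Fin d)) : CFace S :=
  ⟨i, {q | ∃ h ∈ S.par {j | j ≠ i}, q = (w.map S.σ).prod * h},
    ⟨(w.map S.σ).prod, word_mem Set.univ w fun _ _ => trivial, rfl⟩⟩

theorem ne_iff {i : Fin d} {w : List (Fin d)} : (∀ x ∈ w, x ∈ {j | j ≠ i}) ↔ i ∉ w :=
  ⟨fun h hi => h i hi rfl, fun h x hx e => h (by rw [← e]; exact hx)⟩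

theorem meet_iff {p : List (Fin d) → E d} (hs : ∀ v w : List (Fin d), Same p v w ↔
    (v.map S.σ).prod = (w.map S.σ).prod) (i j : Fin d) (v w : List (Fin d)) :
    ((face S i v).coset ∩ (face S j w).coset).Nonempty ↔
      ∃ v' w' : List (Fin d), i ∉ v' ∧ j ∉ w' ∧ Same p (v ++ v') (w ++ w') := by
  constructor
  · rintro ⟨q, ⟨h, hh, e⟩, ⟨h', hh', e'⟩⟩
    obtain ⟨v', hv', rfl⟩ := exists_word _ hh
    obtain ⟨w', hw', rfl⟩ := exists_word _ hh'
    refine ⟨v', w', ne_iff.1 hv', ne_iff.1 hw', ?_⟩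
    rw [hs, prod_append, prod_append, ← e, ← e']
  · rintro ⟨v', w', hv', hw', e⟩
    rw [hs, prod_append, prod_append] at e
    exact ⟨_, ⟨_, word_mem _ v' (ne_iff.2 hv'), rfl⟩, ⟨_, word_mem _ w' (ne_iff.2 hw'), e⟩⟩

/-- a face of the coset poset -/
def cf (K : CFace S) : CPos S := ((K : WithTop (CFace S)) : WithBot (WithTop (CFace S)))

theorem cf_le (K K' : CFace S) : cf K ≤ cf K' ↔ K ≤ K' :=
  WithBot.coe_le_coe.trans WithTop.coe_le_coe

theorem cpos_cases (x : CPos S) : x = ⊥ ∨ x = ⊤ ∨ ∃ K : CFace S, x = cf K := by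
  induction x using WithBot.recBotCoe with
  | bot => exact Or.inl rfl
  | coe x =>
    induction x using WithTop.recTopCoe with
    | top => exact Or.inr (Or.inl rfl)
    | coe K => exact Or.inr (Or.inr ⟨K, rfl⟩)

theorem cf_ne_bot (K : CFace S) : cf K ≠ ⊥ := WithBot.coe_ne_bot

theorem cf_ne_top (K : CFace S) : cf K ≠ ⊤ := by
  intro h
  exact WithTop.coe_ne_top (WithBot.coe_injective (h : _ = ((⊤ : WithTop (CFace S)) : CPos S)))

/-- `(P, f)` is the coset poset -/
theorem cosets_of {p : List (Fin d) → E d} (hA : FOX.Adm S p) {P : Type} [PartialOrder P]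
    {rk : P → ℤ} {f : P → E d} (hM : Match rk f S (p []) (fun x => x)) :
    ∃ c : E d, IsCosets rk f fun w => c + p w := by
  obtain ⟨c, φ, hrk, hv⟩ := hM
  have hs := same_iff hA.act hA.out
  refine ⟨c, φ.symm ⊥, φ.symm ⊤, fun i w => φ.symm (cf (face S i w)), ?_, ?_, ?_, ?_, ?_, ?_⟩
  · rw [← hrk, φ.apply_symm_apply]
    rfl
  · rw [← hrk, φ.apply_symm_apply]
    rfl
  · intro i w
    rw [← hrk, φ.apply_symm_apply]
    rfl
  · intro x
    refine ⟨φ.symm_apply_le.2 bot_le, φ.le_symm_apply.2 le_top, ?_⟩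
    rcases cpos_cases (φ x) with h | h | ⟨K, h⟩
    · left
      rw [← φ.symm_apply_apply x, h]
    · right
      left
      rw [← φ.symm_apply_apply x, h]
    · right
      right
      obtain ⟨g, hg, hK⟩ := K.ex
      obtain ⟨w, -, hw⟩ := exists_word _ hg
      refine ⟨K.rank, w, ?_⟩
      rw [← φ.symm_apply_apply x, h]
      congr 2
      refine CFace.ext' rfl ?_
      rw [hK, ← hw]
      rfl
  · intro i j v w
    rw [φ.symm.le_iff_le, cf_le, CFace.le_def]
    have h2 : ∀ v w : List (Fin d), Same (fun w => c + p w) v w ↔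
        (v.map S.σ).prod = (w.map S.σ).prod := fun v w => by
      rw [same_tr c (fun _ => rfl), hs]
    exact and_congr_right fun _ => meet_iff h2 i j v w
  · intro i w hi
    have h1 := hv (φ.symm (cf (face S i w))) (face S i w) (by
      rw [← hrk, φ.apply_symm_apply]
      show ((i.val : ℕ) : ℤ) = 0
      rw [hi]
      rfl) (φ.apply_symm_apply _) (w.map S.σ).prod ⟨1, one_mem _, (mul_one _).symm⟩
    rw [h1, prod_apply hA.act, List.append_nil]

end faces

/-! ### the permutations -/

section perms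

variable {p : List (Fin d) → E d}

open Classical in
/-- `p w ↦ p (j w)` -/
def sig (p : List (Fin d) → E d) (j : Fin d) (x : E d) : E d :=
  if h : ∃ w, p w = x then p (j :: h.choose) else x

theorem sig_p (hC : StringC p) (j : Fin d) (w : List (Fin d)) : sig p j (p w) = p (j :: w) := by
  have h : ∃ v, p v = p w := ⟨w, rfl⟩
  rw [sig, dif_pos h]
  exact hC.well j _ _ h.choose_spec

theorem sig_out (j : Fin d) {x : E d} (hx : x ∉ Set.range p) : sig p j x = x := by
  rw [sig, dif_neg]
  rintro ⟨w, rfl⟩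
  exact hx ⟨w, rfl⟩

theorem sig_inv (hC : StringC p) (j : Fin d) : Function.Involutive (sig p j) := by
  intro x
  by_cases hx : x ∈ Set.range p
  · obtain ⟨w, rfl⟩ := hx
    rw [sig_p hC, sig_p hC]
    exact hC.sq j w
  · rw [sig_out j hx, sig_out j hx]

/-- the permutations -/
def sgen (hC : StringC p) : SGen d (E d) where
  σ j := (sig_inv hC j).toPerm
  sq j := Equiv.ext fun x => sig_inv hC j x
  comm i j hij := by
    refine Equiv.ext fun x => ?_
    show sig p i (sig p j x) = sig p j (sig p i x)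
    by_cases hx : x ∈ Set.range p
    · obtain ⟨w, rfl⟩ := hx
      rw [sig_p hC, sig_p hC, sig_p hC, sig_p hC]
      exact hC.comm i j hij w
    · rw [sig_out j hx, sig_out i hx, sig_out j hx]

theorem adm_of (hC : StringC p) (hT : Stab p) : FOX.Adm (sgen hC) p := by
  have hact : ∀ (j : Fin d) (w : List (Fin d)), (sgen hC).σ j (p w) = p (j :: w) :=
    fun j w => sig_p hC j w
  have hout : ∀ (j : Fin d) (x : E d), x ∉ Set.range p → (sgen hC).σ j x = x :=
    fun j x hx => sig_out j hx
  have hs := same_iff hact hout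
  refine ⟨hact, hout, fun j e => ?_, fun I J => le_antisymm ?_ ?_, fun γ hγ e => ?_,
    fun m hm γ hγ hγ' => ?_⟩
  · exact hC.ne j ((hs [j] []).2 (by rw [prod_single, e]; rfl))
  · rintro γ ⟨h1, h2⟩
    obtain ⟨v, hv, rfl⟩ := exists_word _ h1
    obtain ⟨w, hw, e⟩ := exists_word _ h2
    obtain ⟨u, hu, hu'⟩ := hC.inter I J v w hv hw ((hs v w).2 e.symm)
    rw [← (hs u v).1 hu']
    exact word_mem _ u hu
  · exact le_inf (Subgroup.closure_mono (Set.image_mono Set.inter_subset_left))
      (Subgroup.closure_mono (Set.image_mono Set.inter_subset_right))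
  · obtain ⟨w, -, rfl⟩ := exists_word _ hγ
    rw [prod_apply hact, List.append_nil] at e
    obtain ⟨u, hu, hu'⟩ := hT.vertex w e
    rw [← (hs u w).1 hu']
    exact word_mem _ u fun x hx => by
      have := hu x hx
      show x.val ≠ 0
      omega
  · obtain ⟨v, hv, rfl⟩ := exists_word _ hγ
    obtain ⟨w, hw, e⟩ := exists_word _ hγ'
    have hp : (prd m).val + 1 = m.val := by
      show m.val - 1 + 1 = m.val
      omega
    obtain ⟨u, hu, hu'⟩ := hT.face (prd m) v w (fun x hx => by
      rcases List.mem_append.1 hx with h | h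
      · have h3 : m.val ≤ x.val := hv x h
        omega
      · have h3 : m.val ≤ x.val := hw x h
        omega) ((hs _ _).2 (by
        rw [prod_append, prod_single, List.map_cons, List.prod_cons, e]))
    rw [← (hs u v).1 hu']
    exact word_mem _ u fun x hx => by
      have := hu x hx
      show m.val < x.val
      omega

end perms

/-! ### the match -/

theorem match_of {S : SGen d (E d)} {p0 p : List (Fin d) → E d} (hA : FOX.Adm S p0) (c : E d)
    (hp : ∀ w, p w = c + p0 w) {P : Type} [PartialOrder P] {rk : P → ℤ} {f : P → E d}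
    (h : IsCosets rk f p) : Match rk f S (p0 []) (fun x => x) := by
  obtain ⟨b, t, F, hb, ht, hF, hx, hle, hv⟩ := h
  have hs : ∀ v w : List (Fin d), Same p v w ↔ (v.map S.σ).prod = (w.map S.σ).prod := fun v w => by
    rw [same_tr c hp, same_iff hA.act hA.out]
  have hw : ∀ K : CFace S, ∃ w : List (Fin d), K = face S K.rank w := by
    intro K
    obtain ⟨g, hg, hK⟩ := K.ex
    obtain ⟨w, -, rfl⟩ := exists_word _ hg
    exact ⟨w, CFace.ext' rfl hK⟩
  choose wd hwd using hw
  have hle' : ∀ (i j : Fin d) (v w : List (Fin d)), F i v ≤ F j w ↔ face S i v ≤ face S j w := by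
    intro i j v w
    rw [hle, CFace.le_def]
    exact and_congr_right fun _ => (meet_iff hs i j v w).symm
  have hFe : ∀ (i : Fin d) (v w : List (Fin d)), face S i v = face S i w → F i v = F i w := by
    intro i v w e
    exact le_antisymm ((hle' i i v w).2 e.le) ((hle' i i w v).2 e.ge)
  -- the map
  let ψ : CPos S → P := fun x => match x with
    | none => b
    | some none => t
    | some (some K) => F K.rank (wd K)
  have hrk : ∀ x : CPos S, rkC x = rk (ψ x) := by
    intro x
    rcases cpos_cases x with rfl | rfl | ⟨K, rfl⟩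
    · exact hb.symm
    · exact ht.symm
    · exact (hF _ _).symm
  have ψb : ψ ⊥ = b := rfl
  have ψt : ψ ⊤ = t := rfl
  have ψK : ∀ K, ψ (cf K) = F K.rank (wd K) := fun K => rfl
  have hbx : ∀ x, b ≤ x := fun x => (hx x).1
  have hxt : ∀ x, x ≤ t := fun x => (hx x).2.1
  have hψ : ∀ x y : CPos S, ψ x ≤ ψ y ↔ x ≤ y := by
    intro x y
    rcases cpos_cases x with rfl | rfl | ⟨K, rfl⟩
    · exact ⟨fun _ => bot_le, fun _ => hbx _⟩
    · rcases cpos_cases y with rfl | rfl | ⟨K', rfl⟩
      · refine ⟨fun h => ?_, fun h => ?_⟩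
        · exfalso
          have h1 : t = b := le_antisymm h (hbx t)
          rw [h1, hb] at ht
          omega
        · exact absurd (le_bot_iff.1 h) top_ne_bot
      · exact ⟨fun _ => le_top, fun _ => le_refl _⟩
      · refine ⟨fun h => ?_, fun h => absurd (top_le_iff.1 h) (cf_ne_top K')⟩
        exfalso
        have h1 : t = F K'.rank (wd K') := le_antisymm h (hxt _)
        have h2 := hF K'.rank (wd K')
        rw [← h1, ht] at h2
        have := K'.rank.2
        omega
    · rcases cpos_cases y with rfl | rfl | ⟨K', rfl⟩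
      · refine ⟨fun h => ?_, fun h => absurd (le_bot_iff.1 h) (cf_ne_bot K)⟩
        exfalso
        have h1 : F K.rank (wd K) = b := le_antisymm h (hbx _)
        have h2 := hF K.rank (wd K)
        rw [h1, hb] at h2
        omega
      · exact ⟨fun _ => le_top, fun _ => hxt _⟩
      · rw [cf_le, ψK, ψK, hle', ← hwd K, ← hwd K']
  have hsur : Function.Surjective ψ := by
    intro x
    obtain ⟨-, -, rfl | rfl | ⟨i, w, rfl⟩⟩ := hx x
    · exact ⟨⊥, rfl⟩
    · exact ⟨⊤, rfl⟩
    · exact ⟨cf (face S i w), hFe i _ _ (hwd (face S i w)).symm⟩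
  let e : CPos S ≃o P := RelIso.ofSurjective (OrderEmbedding.ofMapLEIff ψ hψ) hsur
  have he : ∀ x, e x = ψ x := fun x => rfl
  refine ⟨c, e.symm, fun x => ?_, fun v K hv0 hφ g hg => ?_⟩
  · rw [hrk, ← he, e.apply_symm_apply]
  · have h1 : v = F K.rank (wd K) := by
      rw [← e.apply_symm_apply v, hφ]
      rfl
    have h2 : K.rank.val = 0 := by
      have := hF K.rank (wd K)
      rw [← h1, hv0] at this
      omega
    obtain ⟨g0, hg0, hK⟩ := K.ex
    have h3 : g ∈ S.par Set.univ := by
      rw [hK] at hg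
      obtain ⟨h, hh, rfl⟩ := hg
      exact mul_mem hg0 (Subgroup.closure_mono (Set.image_mono (Set.subset_univ _)) hh)
    obtain ⟨u, -, rfl⟩ := exists_word _ h3
    have h4 : face S K.rank u = K := by
      refine CFace.ext' rfl ?_
      rw [K.coset_eq hg]
      rfl
    have h5 : face S K.rank (wd K) = face S K.rank u := by rw [h4]; exact (hwd K).symm
    rw [h1, hFe _ _ _ h5, hv _ u h2, hp u, prod_apply hA.act, List.append_nil]

end

end KOX
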