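import Pool.Agent.KOR.Base

/-!
# k-orbit realizations of regular polytopes, constructed: definitions

The realizations are constructed from points `p w` of `d`-space, one for every word `w` in the letters
`0, …, d - 1`.  The letter `j` acts on the points by `σ j : p w ↦ p (j w)`; the polytope is the poset
of cosets of the group generated by the `σ j`.
-/

namespace KOX

open KOR
open scoped RealInnerProductSpace

noncomputable section

/-! ## The points -/

/-- Kind F: `p w = c + r (q_w a) g_w y`; up to sign there are `k` functions `r ∘ q_w`. -/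
def KindF {d : ℕ} (k : ℕ) (p : List (Fin d) → E d) : Prop :=
  ∃ (c y : E d) (g : ℕ → (E d ≃ₗᵢ[ℝ] E d)) (A : Type) (M : Datum d A),
    Finite A ∧ (∀ j : Fin d, Nat.log 2 k + 1 ≤ j.val → ∀ x, M.q j x = x) ∧
    Model d 1 ⊤ y g ∧ (∀ x, M.r x ≠ 0) ∧
    classes (fun v w => ∃ s : ℝ, (s = 1 ∨ s = -1) ∧
      ∀ x, M.r (act M.q v x) = s * M.r (act M.q w x)) = k ∧
    ∀ w : List (Fin d), p w = c + M.r (act M.q w M.a) • act (fun j => g j) w y

/-- Kind I: `p w = c + β_w(0) + r (q_w a) g_w y`; `β j = s j g j`, about the point `l y` with `l ≠ 0`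
for `j = 0`; there are `k` functions `s_w r ∘ q_w`. -/
def KindI {d : ℕ} (k : ℕ) (p : List (Fin d) → E d) : Prop :=
  ∃ (c y : E d) (l s0 ε : ℝ) (g : ℕ → (E d ≃ₗᵢ[ℝ] E d)) (A : Type) (M : Datum d A),
    Finite A ∧ (∀ j : Fin d, Nat.log 2 k + 2 ≤ j.val → ∀ x, M.q j x = x) ∧
    (s0 = 1 ∨ s0 = -1) ∧ (ε = 1 ∨ ε = -1) ∧ Model d ε ⊤ y g ∧ l ≠ 0 ∧
    classes (fun v w => ∀ x, act (fun j t => sgn s0 j * t) v (M.r (act M.q v x)) =
      act (fun j t => sgn s0 j * t) w (M.r (act M.q w x))) = k ∧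
    ∀ w : List (Fin d), p w =
      c + act (betaI s0 g (l • y)) w 0 + M.r (act M.q w M.a) • act (fun j => g j) w y

/-- Kind R: `p w = c + β_w(0) + r (q_w a) e`; the model is in the orthogonal complement of the unit
vector `e`; up to sign and constants there are `k` functions `r ∘ q_w`. -/
def KindR {d : ℕ} (k : ℕ) (p : List (Fin d) → E d) : Prop :=
  ∃ (c e y : E d) (l s1 : ℝ) (b : Bool) (g : ℕ → (E d ≃ₗᵢ[ℝ] E d)) (A : Type) (M : Datum d A),
    (∀ j : Fin d, Nat.log 2 k + 3 ≤ j.val → ∀ x, M.q j x = x) ∧ (s1 = 1 ∨ s1 = -1) ∧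
    ‖e‖ = 1 ∧ Model (d - 1) 1 (ℝ ∙ e)ᗮ y g ∧ (b = true → Cross (d - 1) 1 (ℝ ∙ e)ᗮ y g) ∧
    l ≠ 0 ∧
    classes (fun v w => ∃ s t : ℝ, (s = 1 ∨ s = -1) ∧
      ∀ x, M.r (act M.q v x) = s * M.r (act M.q w x) + t) = k ∧
    ∀ w : List (Fin d), p w =
      c + act (betaR b s1 g y (l • y)) w 0 + M.r (act M.q w M.a) • e

/-! ## The polytope -/

/-- `v ∼ w`: the words `v` and `w` induce the same map of the set of points. -/
def Same {d : ℕ} (p : List (Fin d) → E d) (v w : List (Fin d)) : Prop :=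
  ∀ u, p (v ++ u) = p (w ++ u)

/-- The maps `σ j : p w ↦ p (j w)` of the set of points are well defined, they are involutions
different from the identity, `σ i` and `σ j` commute if `|i - j| > 1`, and they have the intersection
property: for the groups `Γ_I` generated by the `σ j` with `j ∈ I` we have `Γ_I ∩ Γ_J = Γ_{I ∩ J}`. -/
structure StringC {d : ℕ} (p : List (Fin d) → E d) : Prop where
  well : ∀ (j : Fin d) (v w : List (Fin d)), p v = p w → p (j :: v) = p (j :: w)
  sq : ∀ j, Same p [j, j] []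
  ne : ∀ j, ¬ Same p [j] []
  comm : ∀ i j : Fin d, i.val + 2 ≤ j.val → Same p [i, j] [j, i]
  inter : ∀ (I J : Set (Fin d)) (v w : List (Fin d)), (∀ x ∈ v, x ∈ I) → (∀ x ∈ w, x ∈ J) →
    Same p v w → ∃ u : List (Fin d), (∀ x ∈ u, x ∈ I ∩ J) ∧ Same p u v

/-- The stabilizer of the point `p []` is generated by the `σ j` with `j ≥ 1`; and if `γ` and
`σ i γ σ i` are in the group generated by the `σ j` with `j > i` then `γ` is in the group generated by
the `σ j` with `j > i + 1`. -/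
structure Stab {d : ℕ} (p : List (Fin d) → E d) : Prop where
  vertex : ∀ w : List (Fin d), p w = p [] → ∃ u : List (Fin d), (∀ x ∈ u, 1 ≤ x.val) ∧ Same p u w
  face : ∀ (i : Fin d) (v w : List (Fin d)), (∀ x ∈ v ++ w, i.val < x.val) →
    Same p (i :: v ++ [i]) w → ∃ u : List (Fin d), (∀ x ∈ u, i.val + 1 < x.val) ∧ Same p u v

/-- `P` with the vertex map `f` is the poset of cosets: besides a least and a greatest face there are
the faces `F i w` of rank `i`, `0 ≤ i < d`, the left coset of `σ_w` by the group `Γ_i` generated by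
the `σ j` with `j ≠ i`; `F i v ≤ F j w` if and only if `i ≤ j` and the two cosets meet; the vertex
`F 0 w` goes to `p w`. -/
def IsCosets {d : ℕ} {P : Type} [PartialOrder P] (rk : P → ℤ) (f : P → E d)
    (p : List (Fin d) → E d) : Prop :=
  ∃ (b t : P) (F : Fin d → List (Fin d) → P), rk b = -1 ∧ rk t = d ∧
    (∀ i w, rk (F i w) = (i.val : ℤ)) ∧
    (∀ x, b ≤ x ∧ x ≤ t ∧ (x = b ∨ x = t ∨ ∃ i w, x = F i w)) ∧
    (∀ i j v w, F i v ≤ F j w ↔ i ≤ j ∧ ∃ v' w' : List (Fin d), i ∉ v' ∧ j ∉ w' ∧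
      Same p (v ++ v') (w ++ w')) ∧
    ∀ i w, i.val = 0 → f (F i w) = p w

/-- `(P, f)` is constructed from points of one of the three kinds -/
def Constructed {d : ℕ} {P : Type} [PartialOrder P] (k : ℕ) (rk : P → ℤ) (f : P → E d) : Prop :=
  ∃ p : List (Fin d) → E d, (KindF k p ∨ KindI k p ∨ KindR k p) ∧
    DiscreteTopology (Set.range p) ∧ StringC p ∧ Stab p ∧ IsCosets rk f p

end

end KOX
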