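import Pool.Agent.KOX.B3
import Pool.Agent.FOX.All

/-!
# The theorem in the compact definitions
-/

namespace KOX

open KOR

noncomputable section

variable {d k : ℕ}

theorem stringC_tr (c : E d) {p0 p : List (Fin d) → E d} (h : ∀ w, p w = c + p0 w) :
    StringC p ↔ StringC p0 := by
  have hs := same_tr c h
  constructor
  · intro hC
    refine ⟨fun j v w e => ?_, fun j => (hs _ _).1 (hC.sq j), fun j e => hC.ne j ((hs _ _).2 e),
      fun i j hij => (hs _ _).1 (hC.comm i j hij), fun I J v w hv hw e => ?_⟩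
    · have := hC.well j v w (by rw [h, h, e])
      rw [h, h, add_right_inj] at this
      exact this
    · obtain ⟨u, h1, h2⟩ := hC.inter I J v w hv hw ((hs _ _).2 e)
      exact ⟨u, h1, (hs _ _).1 h2⟩
  · intro hC
    refine ⟨fun j v w e => ?_, fun j => (hs _ _).2 (hC.sq j), fun j e => hC.ne j ((hs _ _).1 e),
      fun i j hij => (hs _ _).2 (hC.comm i j hij), fun I J v w hv hw e => ?_⟩
    · rw [h, h, add_right_inj] at e
      rw [h, h, hC.well j v w e]
    · obtain ⟨u, h1, h2⟩ := hC.inter I J v w hv hw ((hs _ _).1 e)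
      exact ⟨u, h1, (hs _ _).2 h2⟩

theorem stab_tr (c : E d) {p0 p : List (Fin d) → E d} (h : ∀ w, p w = c + p0 w) :
    Stab p ↔ Stab p0 := by
  have hs := same_tr c h
  constructor
  · intro hC
    refine ⟨fun w e => ?_, fun i v w hvw e => ?_⟩
    · obtain ⟨u, h1, h2⟩ := hC.vertex w (by rw [h, h, e])
      exact ⟨u, h1, (hs _ _).1 h2⟩
    · obtain ⟨u, h1, h2⟩ := hC.face i v w hvw ((hs _ _).2 e)
      exact ⟨u, h1, (hs _ _).1 h2⟩
  · intro hC
    refine ⟨fun w e => ?_, fun i v w hvw e => ?_⟩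
    · rw [h, h, add_right_inj] at e
      obtain ⟨u, h1, h2⟩ := hC.vertex w e
      exact ⟨u, h1, (hs _ _).2 h2⟩
    · obtain ⟨u, h1, h2⟩ := hC.face i v w hvw ((hs _ _).1 e)
      exact ⟨u, h1, (hs _ _).2 h2⟩

theorem discr_tr (c : E d) {p0 p : List (Fin d) → E d} (h : ∀ w, p w = c + p0 w) :
    DiscreteTopology (Set.range p) ↔ DiscreteTopology (Set.range p0) := by
  have h1 : Set.range p = (fun x => c + x) '' Set.range p0 := by
    ext x
    constructor
    · rintro ⟨w, rfl⟩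
      exact ⟨p0 w, ⟨w, rfl⟩, (h w).symm⟩
    · rintro ⟨_, ⟨w, rfl⟩, rfl⟩
      exact ⟨w, h w⟩
  rw [h1]
  exact FOX.discr_iff c _

theorem constructed_iff (hk : 2 ≤ k) (hd : k + 4 * (Nat.log 2 k + 4) ^ 2 ≤ d) {P : Type}
    [PartialOrder P] (rk : P → ℤ) (f : P → E d) :
    (RegularPolytope d rk ∧ IsOrbitRealization k rk f) ↔ Constructed k rk f := by
  have hall := (FOX.all k d hk hd).1 P rk f
  have h1 : (RegularPolytope d rk ∧ IsOrbitRealization k rk f) ↔
      (FO2.IsRegularPolytope d rk ∧ FOI.Discr rk f ∧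
        Lib_helper64.FO.IsOrbitRealization rk f k) := by
    constructor
    · rintro ⟨hP, hO⟩
      exact ⟨rp_iff.1 hP, (isOrb_iff hP f).1 hO⟩
    · rintro ⟨hP, hO⟩
      exact ⟨rp_iff.2 hP, (isOrb_iff (rp_iff.2 hP) f).2 hO⟩
  rw [h1, hall]
  constructor
  · rintro ⟨p0, S, hp, hD, hA, hM⟩
    obtain ⟨c, hc⟩ := cosets_of hA hM
    have htr : ∀ w : List (Fin d), (fun w => c + p0 w) w = c + p0 w := fun _ => rfl
    exact ⟨fun w => c + p0 w, pt_to c hp, (discr_tr c htr).2 hD,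
      (stringC_tr c htr).2 (stringC_of hA), (stab_tr c htr).2 (stab_of hA), hc⟩
  · rintro ⟨p, hp, hD, hC, hT, hI⟩
    obtain ⟨c, p0, hp0, htr⟩ := pt_of hp
    have hA := adm_of ((stringC_tr c htr).1 hC) ((stab_tr c htr).1 hT)
    exact ⟨p0, _, hp0, (discr_tr c htr).1 hD, hA, match_of hA c htr hI⟩

/-- the theorem -/
def Main (k d : ℕ) : Prop :=
    (∀ (P : Type) [PartialOrder P] (rk : P → ℤ) (f : P → E d),
      (RegularPolytope d rk ∧ IsOrbitRealization k rk f) ↔ Constructed k rk f) ∧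
    ((∃ (P : Type) (_ : PartialOrder P) (_ : Finite P) (rk : P → ℤ) (f : P → E d),
      RegularPolytope d rk ∧ IsOrbitRealization k rk f) ↔ Even k) ∧
    (∃ (P : Type) (_ : PartialOrder P) (_ : Infinite P) (rk : P → ℤ) (f : P → E d),
      RegularPolytope d rk ∧ IsOrbitRealization k rk f)

theorem final (hk : 2 ≤ k) (hd : k + 4 * (Nat.log 2 k + 4) ^ 2 ≤ d) : Main k d := by
  obtain ⟨-, h2, h3⟩ := FOX.all k d hk hd
  refine ⟨fun P _ rk f => constructed_iff hk hd rk f, ?_, ?_⟩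
  · rw [← h2]
    constructor
    · rintro ⟨P, _, hfin, rk, f, hP, hf⟩
      exact ⟨P, _, hfin, rk, f, rp_iff.1 hP, (isOrb_iff hP f).1 hf⟩
    · rintro ⟨P, _, hfin, rk, f, hP, hf⟩
      exact ⟨P, _, hfin, rk, f, rp_iff.2 hP, (isOrb_iff (rp_iff.2 hP) f).2 hf⟩
  · obtain ⟨P, _, hinf, rk, f, hP, hf⟩ := h3
    exact ⟨P, _, hinf, rk, f, rp_iff.2 hP, (isOrb_iff (rp_iff.2 hP) f).2 hf⟩

end

end KOX
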